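import Pool.Agent.Y425.BF6.Tf

set_option autoImplicit false

/-!
Three 2-factors covering a bridgeless cubic graph of cutwidth at most six.

A finite graph, parallel edges allowed, has the vertex set `V` and the edge set `E`; the ends of the
edge `e` are `src e` and `dst e`. The cutwidth is at most six if the vertices can be placed on a
line such that at most six edges pass over each gap.
-/

open Finset

namespace Pool.Agent.Results.MP_b7f2ce_co.CutwidthSix

/-- the edges at the vertex `v` -/
def star {V E : Type} [DecidableEq V] [Fintype E] (src dst : E → V) (v : V) : Finset E :=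
  univ.filter fun e => src e = v ∨ dst e = v

open Pool.Agent.Y425.BF6.Tf (at_vertex transversal compl6 dg_card deg3 two_of)

theorem aux {V E : Type} [Fintype V] [DecidableEq V] [Fintype E] [DecidableEq E]
    {src dst : E → V} (hl : ∀ e, src e ≠ dst e)
    (hc : ∀ v, (Pool.Agent.Y425.BF6.Tf.star src dst v).card = 3)
    {C : Fin 6 → Finset E} (hC : ∀ i v, Even (Pool.Agent.Y425.BF6.Tf.dg src dst (C i) v))
    (h4 : ∀ e, (univ.filter fun i => e ∈ C i).card = 4) (x y : V) :
    ∃ C : Fin 3 → Finset E, (∀ i v, (C i ∩ Pool.Agent.Y425.BF6.Tf.star src dst v).card = 2) ∧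
      (∀ e, ∃ i, e ∈ C i) ∧
      ∀ e ∈ Pool.Agent.Y425.BF6.Tf.star src dst x ∪ Pool.Agent.Y425.BF6.Tf.star src dst y,
        (univ.filter fun i => e ∈ C i).card = 2 := by
  obtain ⟨a, u, ha, hst, hu, hu2⟩ := at_vertex hl hc hC h4 x
  obtain ⟨b, w, hb', hst', hw, hw2⟩ := at_vertex hl hc hC h4 y
  obtain ⟨σ, hσ, hσw⟩ := transversal hu2 hw2
  have hσi : Function.Injective σ := fun i j h => by
    rw [← hσ i, ← hσ j, h]
  refine ⟨fun i => C (σ i), fun i v => ?_, fun e => ?_, fun e he => ?_⟩
  · -- two edges at every vertex
    have h5 := (compl6 hC h4 (deg3 hl hc)).1 (σ i) v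
    rw [dg_card hl] at h5
    have h6 : (univ \ C (σ i)).filter (fun e => e ∈ Pool.Agent.Y425.BF6.Tf.star src dst v) =
        Pool.Agent.Y425.BF6.Tf.star src dst v \ (C (σ i) ∩ Pool.Agent.Y425.BF6.Tf.star src dst v) := by
      ext e
      simp only [mem_filter, mem_sdiff, mem_univ, true_and, mem_inter]
      tauto
    rw [h6, card_sdiff_of_subset inter_subset_right, hc v] at h5
    change (C (σ i) ∩ Pool.Agent.Y425.BF6.Tf.star src dst v).card = 2
    omega
  · -- any three of the six cover
    by_contra hne
    push Not at hne
    have h5 : (univ.filter fun k => e ∈ C k).card + (univ.image σ).card ≤ 6 := by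
      rw [← card_union_of_disjoint]
      · exact (card_le_univ _).trans (by simp)
      · rw [disjoint_left]
        intro k h6 h7
        obtain ⟨i, _, rfl⟩ := mem_image.mp h7
        exact hne i (mem_filter.mp h6).2
    rw [h4 e, card_image_of_injective _ hσi, card_univ, Fintype.card_fin] at h5
    omega
  · rw [mem_union] at he
    rcases he with he | he
    · rw [hst] at he
      obtain ⟨j, _, rfl⟩ := mem_image.mp he
      have h5 : (univ.filter fun i => a j ∈ C (σ i)) = univ.filter fun i : Fin 3 => i ≠ j := by
        ext i
        simp only [mem_filter, mem_univ, true_and]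
        rw [hu, hσ]
      rw [h5]
      exact two_of (w := id) Function.injective_id j
    · rw [hst'] at he
      obtain ⟨j, _, rfl⟩ := mem_image.mp he
      have h5 : (univ.filter fun i => b j ∈ C (σ i)) =
          univ.filter fun i : Fin 3 => w (σ i) ≠ j := by
        ext i
        simp only [mem_filter, mem_univ, true_and]
        rw [hw]
      rw [h5]
      exact two_of hσw j

/-- Let `G` be a finite cubic graph without loops such that no set of vertices is left by exactly one
edge (no bridges) and that the vertices can be numbered injectively by natural numbers such that for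
each `n` at most six edges join a vertex with number smaller than `n` to a vertex with number at
least `n`. Let `x` and `y` be vertices. Then `G` has three 2-factors which cover all edges such that
every edge at `x` or `y` is in exactly two of them. -/
theorem result (V E : Type) [Fintype V] [DecidableEq V] [Fintype E] [DecidableEq E]
    (src dst : E → V) (hl : ∀ e, src e ≠ dst e) (hc : ∀ v, (star src dst v).card = 3)
    (hb : ∀ Z : Finset V, (univ.filter fun e => ¬ (src e ∈ Z ↔ dst e ∈ Z)).card ≠ 1)
    (hw : ∃ f : V → ℕ, Function.Injective f ∧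
      ∀ n, (univ.filter fun e => ¬ (f (src e) < n ↔ f (dst e) < n)).card ≤ 6) (x y : V) :
    ∃ C : Fin 3 → Finset E, (∀ i v, (C i ∩ star src dst v).card = 2) ∧ (∀ e, ∃ i, e ∈ C i) ∧
      ∀ e ∈ star src dst x ∪ star src dst y, (univ.filter fun i => e ∈ C i).card = 2 := by
  obtain ⟨C, hC, h4⟩ := Pool.Agent.Y425.BF6.Cor.six_cw src dst hb hw
  exact aux hl hc hC h4 x y

end Pool.Agent.Results.MP_b7f2ce_co.CutwidthSix
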